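import Pool.Agent.Run7.h917.LW.Mat
import Pool.Agent.Run7.h917.HG.Few

set_option autoImplicit false

universe u v

noncomputable section

namespace Pool.Agent.Results.MP_328435_al.HyperbolicRankBound

/-- The kernel of right multiplication by the matrix `A` over the complex group ring on row vectors
of length `m` over `l2(G)`: all square-summable `x` with `x A = 0`. -/
def kernel {G : Type u} [Group G] {m l : ℕ} (A : Matrix (Fin m) (Fin l) (G →₀ ℂ)) :
    Set (lp (fun _ : Fin m × G => ℂ) 2) :=
  {x | ∀ (j : Fin l) (g : G),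
    ∑ k : Fin m, ∑ h ∈ (A k j).support, x (k, g * h⁻¹) * A k j h = 0}

open Classical in
/-- The von Neumann dimension of that kernel: the sum over `i` of one minus the square of the
distance from the basis vector at `(i, 1)` to the kernel, that is, the sum of the squared lengths
of the projections of these vectors to the kernel. -/
def kerDim {G : Type u} [Group G] {m l : ℕ} (A : Matrix (Fin m) (Fin l) (G →₀ ℂ)) : ℝ :=
  ∑ i : Fin m, (1 - Metric.infDist
    (lp.single (E := fun _ : Fin m × G => ℂ) 2 (i, (1 : G)) (1 : ℂ)) (kernel A) ^ 2)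

/-- The square of the norm of `α` in `ℓ²(G)`. -/
def normSq {G : Type u} (α : G →₀ ℂ) : ℝ := ∑ g ∈ α.support, ‖α g‖ ^ 2

/-- The Cayley graph of `H`: `a` and `b` are adjacent if they are different and `a⁻¹ b` or `b⁻¹ a`
is in `S`. -/
def cayley {H : Type v} [Group H] (S : Finset H) : SimpleGraph H :=
  SimpleGraph.fromRel fun a b : H => a⁻¹ * b ∈ S

/-- `H` is generated by `S` and is hyperbolic in the sense of Gromov: the path metric `d` of the
Cayley graph satisfies the four point condition
`d(x, y) + d(z, w) ≤ max (d(x, z) + d(y, w), d(x, w) + d(y, z)) + 2 δ`. -/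
def Hyperbolic {H : Type v} [Group H] (δ : ℕ) (S : Finset H) : Prop :=
  Subgroup.closure (S : Set H) = ⊤ ∧ ∀ x y z w : H,
    (cayley S).dist x y + (cayley S).dist z w ≤
      max ((cayley S).dist x z + (cayley S).dist y w)
        ((cayley S).dist x w + (cayley S).dist y z) + 2 * δ

/-- The kernel of `f` is torsion-free. -/
def TorsionFreeKernel {G : Type u} [Group G] {H : Type v} [Group H] (f : G →* H) : Prop :=
  ∀ g : G, f g = 1 → IsOfFinOrder g → g = 1

theorem rkM_eq_kerDim {G : Type u} [Group G] {m l : ℕ} (A : Matrix (Fin m) (Fin l) (G →₀ ℂ)) :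
    Run7.h266.AZ.rkM (K := Fin m) (L := Fin l) A = m - kerDim A := by
  refine (Run7.h266.AZ.rkM_eq (K := Fin m) (L := Fin l) A).trans ?_
  rw [Fintype.card_fin]
  congr 1

/-- **Kernel dimensions for hyperbolic groups.** Let `H` be a `δ`-hyperbolic group with at most `s`
generators, and let `G` be `H` or, more generally, a group with a homomorphism to `H` with
torsion-free kernel. Let `A` be a matrix over the complex group ring of `G` with `m` rows, and let
`(i_a, j_a)`, `a < p`, be places such that the entries at `(i_a, j_b)` are zero for `a < b`. Let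
`α_a` be the entry at `(i_a, j_a)`.

1. For all `C`, `δ`, `s` there is `N` (the same for all such groups and matrices) such that: if
   `α_a` has at least `N` terms, all of absolute value at least `μ_a`, for each `a`, then
   `dim ker A ≤ m - ∑ C μ_a² / ‖α_a‖²`. In particular `dim ker A ≤ m - C / n` if some entry has
   `n ≥ N` terms, all of absolute value one.
2. For all `C`, `δ`, `s` there is `N` such that: if the coefficients of the `α_a` are of absolute
   value zero or at least one (for example integers) and `‖α_a‖² ≥ N` for all `a`, then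
   `dim ker A ≤ m - ∑ C / ‖α_a‖²`. -/
theorem result :
    (∀ (C : ℝ) (δ s : ℕ), ∃ N : ℕ, ∀ (G : Type u) [Group G] (H : Type v) [Group H] (S : Finset H)
      (f : G →* H), S.card ≤ s → Hyperbolic δ S → TorsionFreeKernel f →
      ∀ (m l : ℕ) (A : Matrix (Fin m) (Fin l) (G →₀ ℂ)) (p : ℕ) (i : Fin p → Fin m)
      (j : Fin p → Fin l) (μ : Fin p → ℝ), (∀ a b, a < b → A (i a) (j b) = 0) → (∀ a, 0 ≤ μ a) →
      (∀ a, ∀ g ∈ (A (i a) (j a)).support, μ a ≤ ‖A (i a) (j a) g‖) →
      (∀ a, N ≤ (A (i a) (j a)).support.card) →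
      kerDim A ≤ m - ∑ a, C * μ a ^ 2 / normSq (A (i a) (j a))) ∧
    (∀ (C : ℝ) (δ s : ℕ), ∃ N : ℕ, ∀ (G : Type u) [Group G] (H : Type v) [Group H] (S : Finset H)
      (f : G →* H), S.card ≤ s → Hyperbolic δ S → TorsionFreeKernel f →
      ∀ (m l : ℕ) (A : Matrix (Fin m) (Fin l) (G →₀ ℂ)) (p : ℕ) (i : Fin p → Fin m)
      (j : Fin p → Fin l), (∀ a b, a < b → A (i a) (j b) = 0) →
      (∀ a, ∀ g ∈ (A (i a) (j a)).support, 1 ≤ ‖A (i a) (j a) g‖) →
      (∀ a, (N : ℝ) ≤ normSq (A (i a) (j a))) →
      kerDim A ≤ m - ∑ a, C / normSq (A (i a) (j a))) := by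
  refine ⟨fun C δ s => ?_, fun C δ s => ?_⟩
  · obtain ⟨N, hN⟩ := Run7.h917.LW.mat_few.{u} C ((2 * s + 1) ^ (40 * δ + 8))
    refine ⟨N, fun G _ H _ S f hs hH hf m l A p i j μ htri hμ hA hcard => ?_⟩
    have hfew := Run7.h917.HG.few_of_hom f hf (Run7.h917.HG.few_of_hyperbolic hH hs)
    have h := hN G hfew (Fin m) (Fin l) A p i j μ htri hμ hA hcard
    rw [rkM_eq_kerDim] at h
    unfold normSq
    linarith
  · obtain ⟨N, hN⟩ := Run7.h917.LW.mat_int.{u} C ((2 * s + 1) ^ (40 * δ + 8))
    refine ⟨N, fun G _ H _ S f hs hH hf m l A p i j htri hA hcard => ?_⟩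
    have hfew := Run7.h917.HG.few_of_hom f hf (Run7.h917.HG.few_of_hyperbolic hH hs)
    have h := hN G hfew (Fin m) (Fin l) A p i j htri hA hcard
    rw [rkM_eq_kerDim] at h
    unfold normSq
    linarith

end Pool.Agent.Results.MP_328435_al.HyperbolicRankBound
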